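import Mathlib
import Pool.Graph.R_pool_sql_team_seeded_620a6dc7.H284_net.Lines

/-!
# Four classes of lines through one point: the connectivity condition
-/

set_option autoImplicit false

open Matrix Finset
open scoped ComplexOrder
open Pool.Agent.H284_net

namespace Pool.Agent.H138.Net

/-- The points of a line form a closed set. -/
lemma isClosed_line (ℓ : P2) : @IsClosed P2 topP2 {q | On q ℓ} := by
  unfold topP2
  rw [isClosed_coinduced]
  have h : (fun v : {v : Fin 3 → ℂ // v ≠ 0} => Projectivization.mk ℂ v.1 v.2) ⁻¹' {q | On q ℓ} =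
      {v | v.1 ⬝ᵥ ℓ.rep = 0} := by
    ext v
    simp only [Set.mem_preimage, Set.mem_ofPred_eq, On]
    obtain ⟨a, ha⟩ := Projectivization.exists_smul_eq_mk_rep ℂ v.1 v.2
    rw [← ha, Units.smul_def, smul_dotProduct, smul_eq_mul, mul_eq_zero]
    constructor
    · rintro (h | h)
      · exact absurd h a.ne_zero
      · exact h
    · exact Or.inr
  rw [h]
  refine isClosed_eq ?_ continuous_const
  unfold dotProduct
  exact continuous_finsetSum _ (fun i _ =>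
    ((continuous_apply i).comp continuous_subtype_val).mul continuous_const)

/-- Every line has a point different from a given point. -/
lemma exists_other (p ℓ : P2) : ∃ q, On q ℓ ∧ q ≠ p := by
  have hp : p.rep ≠ 0 := p.rep_nonzero
  have hw : star p.rep ≠ 0 := by
    intro h
    exact hp (by simpa using h)
  obtain ⟨q, hq1, hq2⟩ := exists_meet ℓ (Projectivization.mk ℂ (star p.rep) hw)
  refine ⟨q, hq1, ?_⟩
  rintro rfl
  obtain ⟨a, ha⟩ := Projectivization.exists_smul_eq_mk_rep ℂ (star q.rep) hw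
  unfold On at hq2
  rw [← ha, Units.smul_def, dotProduct_smul, smul_eq_mul, mul_eq_zero] at hq2
  rcases hq2 with h | h
  · exact a.ne_zero h
  · exact hp (dotProduct_self_star_eq_zero.mp h)

/-- If all lines pass through one point, then every class has only one line. -/
lemma isLocal_of_pencil {k : ℕ} (hk : 2 ≤ k) {A : Fin k → Finset P2} {m : P2 → ℕ} {X : Set P2}
    {d : ℕ} (h : IsMultinet k A m X d) {p : P2} (hp : ∀ i, ∀ ℓ ∈ A i, On p ℓ) : IsLocal A := by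
  classical
  refine ⟨p, fun i => ?_⟩
  obtain ⟨ℓ₁, h1⟩ := h.nonempty i
  have hone : ∀ ℓ ∈ A i, ℓ = ℓ₁ := by
    intro ℓ₂ h2
    by_contra hne
    -- the base locus is `{p}`
    have hX : ∀ q, q ∈ X → q = p := by
      intro q hq
      obtain ⟨a, b, ℓ, hℓ, ℓ', hℓ', hne', h3, h4⟩ := h.baseSub q hq
      exact eq_of_on hne' h3 h4 (hp a ℓ hℓ) (hp b ℓ' hℓ')
    have hpX : p ∈ X := by
      have : ∃ j : Fin k, i ≠ j := by
        by_cases hi : (i : ℕ) = 0
        · exact ⟨⟨1, by omega⟩, fun hc => by rw [hc] at hi; simp at hi⟩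
        · exact ⟨⟨0, by omega⟩, fun hc => hi (by rw [hc])⟩
      obtain ⟨j, hj⟩ := this
      obtain ⟨ℓ', hℓ'⟩ := h.nonempty j
      exact h.cross i j hj ℓ₁ h1 ℓ' hℓ' p (hp i ℓ₁ h1) (hp j ℓ' hℓ')
    have hconn := (h.connected i).2
    have key := (@isPreconnected_closed_iff P2 topP2 _).mp hconn {q | On q ℓ₁}
      (⋃ ℓ ∈ (A i).erase ℓ₁, {q | On q ℓ}) (isClosed_line ℓ₁)
      (@Set.Finite.isClosed_biUnion P2 P2 topP2 _ _ ((A i).erase ℓ₁).finite_toSet
        (fun ℓ _ => isClosed_line ℓ)) ?_ ?_ ?_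
    · obtain ⟨q, ⟨_, hqX⟩, hq1, hq2⟩ := key
      simp only [Set.mem_iUnion, Set.mem_ofPred_eq] at hq1 hq2
      obtain ⟨ℓ, hℓ, hq3⟩ := hq2
      obtain ⟨hne1, hℓA⟩ := mem_erase.mp hℓ
      have : q = p := eq_of_on hne1 hq3 hq1 (hp i ℓ hℓA) (hp i ℓ₁ h1)
      exact hqX (this ▸ hpX)
    · rintro q ⟨⟨ℓ, hℓ, hq⟩, _⟩
      by_cases hc : ℓ = ℓ₁
      · left
        rw [← hc]
        exact hq
      · right
        simp only [Set.mem_iUnion, Set.mem_ofPred_eq]
        exact ⟨ℓ, mem_erase.mpr ⟨hc, hℓ⟩, hq⟩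
    · obtain ⟨q, hq, hqp⟩ := exists_other p ℓ₁
      exact ⟨q, ⟨⟨ℓ₁, h1, hq⟩, fun hc => hqp (hX q hc)⟩, hq⟩
    · obtain ⟨q, hq, hqp⟩ := exists_other p ℓ₂
      refine ⟨q, ⟨⟨ℓ₂, h2, hq⟩, fun hc => hqp (hX q hc)⟩, ?_⟩
      simp only [Set.mem_iUnion, Set.mem_ofPred_eq]
      exact ⟨ℓ₂, mem_erase.mpr ⟨hne, h2⟩, hq⟩
  refine ⟨ℓ₁, ?_, hp i ℓ₁ h1⟩
  ext ℓ
  rw [mem_singleton]
  exact ⟨hone ℓ, fun hc => hc ▸ h1⟩

end Pool.Agent.H138.Net
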