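import Mathlib
import Pool.Agent.H138.Net.Pencil

/-!
# Every non-local 4-multinet is the Hesse multinet

Let the classes `A 0, …, A 3` of lines of the complex projective plane, the multiplicities `m` and
the base locus `X` form a `4`-multinet (of degree `d`) which is not local. Then the multiplicities
are constant (all are `1` after division by the constant), and a projective transformation carries
the four classes onto the four triangles of the Hesse pencil
`x ^ 3 + y ^ 3 + z ^ 3 - 3 t x y z` and the base locus onto its nine base points, the inflection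
points of `x ^ 3 + y ^ 3 + z ^ 3 = 0`. This is the positive answer to Q1.

The definitions `P2`, `On`, `topP2`, `IsMultinet`, `IsReduced`, `IsLocal`, `hesseLine`, `IsFlex`,
`IsHesse` are those of `Pool.Graph.R_pool_sql_team_seeded_620a6dc7.H284_net.Defs`.

Idea of the proof (the metric part is the library development `H284_net`, which no earlier hand-in
used). If the lines do not all pass through one point, a stability argument gives a Hermitian
metric for which the unit normal vectors `u` of the lines are in isotropic position,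
`∑ m u u^* = (4 d / 3) 1`. Comparing the squares of the Hilbert-Schmidt norms over the four classes
and over the base points gives an equality case: every class is isotropic, and at every base point
there is one line of every class. Hence the multinet is a net; comparing overlaps, lines of
different classes have overlap `1/3`, and lines of one class are orthogonal. So the classes are
four mutually unbiased bases of `ℂ ^ 3`, and these are unique. If all lines pass through one point,
then the connectivity of the classes makes the multinet local.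
-/

set_option autoImplicit false

open Matrix Finset
open Pool.Agent.H284_net
open Pool.Agent.H138.Net

namespace Pool.Agent.H138.Net.Main

private lemma hv_eq (k : Fin 4) (a : Fin 3) : hv k a = hesseLine k a := rfl

/-- The product of the three linear forms of the class `0`. -/
private lemma prod_forms {w : ℂ} (h : 1 + w + w ^ 2 = 0) (x y z : ℂ) :
    (x + y + z) * (x + w * y + w ^ 2 * z) * (x + w ^ 2 * y + w ^ 4 * z) =
      x ^ 3 + y ^ 3 + z ^ 3 - 3 * (x * y * z) := by
  have h3 : w ^ 3 = 1 := by linear_combination (w - 1) * h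
  have h4 : w ^ 4 = w := by linear_combination w * h3
  have h2 : w ^ 2 = -1 - w := by linear_combination h
  rw [h4, h2]
  ring_nf
  rw [h2]
  ring

private lemma dot_three {v : Fin 3 → ℂ} {k : Fin 4} (hk : (k : ℕ) = 3) (a : Fin 3) :
    v ⬝ᵥ hesseLine k a = v a := by
  unfold hesseLine
  rw [if_pos hk]
  simp

private lemma dot_zero {v : Fin 3 → ℂ} {k : Fin 4} (hk : (k : ℕ) = 0) (a : Fin 3) :
    v ⬝ᵥ hesseLine k a = v 0 + om ^ (a : ℕ) * v 1 + om ^ (2 * (a : ℕ)) * v 2 := by
  unfold hesseLine
  rw [if_neg (by omega), hk, zero_add]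
  simp [dotProduct, Fin.sum_univ_three, om]
  ring

private lemma flex_iff (v : Fin 3 → ℂ) {k l : Fin 4} (hk : (k : ℕ) = 3) (hl : (l : ℕ) = 0) :
    IsFlex v ↔ (∃ a, v ⬝ᵥ hesseLine k a = 0) ∧ (∃ a, v ⬝ᵥ hesseLine l a = 0) := by
  have hp := prod_forms om_sum (v 0) (v 1) (v 2)
  have h3 : (∃ a, v ⬝ᵥ hesseLine k a = 0) ↔ v 0 * v 1 * v 2 = 0 := by
    simp only [dot_three hk, mul_eq_zero]
    constructor
    · rintro ⟨a, ha⟩
      fin_cases a
      · exact Or.inl (Or.inl ha)
      · exact Or.inl (Or.inr ha)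
      · exact Or.inr ha
    · rintro ((h | h) | h)
      · exact ⟨0, h⟩
      · exact ⟨1, h⟩
      · exact ⟨2, h⟩
  have h0 : (∃ a, v ⬝ᵥ hesseLine l a = 0) ↔
      v 0 ^ 3 + v 1 ^ 3 + v 2 ^ 3 - 3 * (v 0 * v 1 * v 2) = 0 := by
    rw [← hp, mul_eq_zero, mul_eq_zero]
    simp only [dot_zero hl]
    constructor
    · rintro ⟨a, ha⟩
      fin_cases a
      · left; left
        simpa using ha
      · left; right
        simpa using ha
      · right
        simpa using ha
    · rintro ((h | h) | h)
      · exact ⟨0, by simpa using h⟩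
      · exact ⟨1, by simpa using h⟩
      · exact ⟨2, by simpa using h⟩
  rw [h3, h0]
  unfold IsFlex
  constructor
  · rintro ⟨h1, h2⟩
    exact ⟨h2, by rw [h1, h2]; ring⟩
  · rintro ⟨h1, h2⟩
    refine ⟨?_, h1⟩
    rw [h1] at h2
    linear_combination h2

/-- The vectors of one class are pairwise non-proportional. -/
private lemma hv_inj {k : Fin 4} {a b : Fin 3} {s t : ℂ} (hs : s ≠ 0) (ht : t ≠ 0)
    (h : s • hv k a = t • hv k b) : a = b := by
  unfold hv at h
  by_cases hk : (k : ℕ) = 3
  · rw [if_pos hk, if_pos hk] at h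
    by_contra hne
    have h1 := congrFun h a
    rw [Pi.smul_apply, Pi.smul_apply, Pi.single_eq_same, Pi.single_eq_of_ne hne, smul_zero,
      smul_eq_mul, mul_one] at h1
    exact hs h1
  · rw [if_neg hk, if_neg hk] at h
    have h1 := congrFun h 0
    have h2 := congrFun h 1
    simp only [Pi.smul_apply, smul_eq_mul, cons_val_zero, cons_val_one, mul_one] at h1 h2
    rw [h1] at h2
    have h3 := mul_left_cancel₀ ht h2
    exact Fin.ext (om_prim.pow_inj a.2 b.2 h3)

/-- **Every non-local `4`-multinet is the Hesse multinet.** -/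
theorem main
    (A : Fin 4 → Finset P2) (m : P2 → ℕ) (X : Set P2) (d : ℕ)
    (h : IsMultinet 4 A m X d) (hloc : ¬ IsLocal A) :
    (∃ μ, 0 < μ ∧ d = 3 * μ ∧ ∀ i, ∀ ℓ ∈ A i, m ℓ = μ) ∧ IsHesse A X := by
  classical
  have hbal : ∀ i j, i ≠ j → ∀ ℓ ∈ A i, ∀ ℓ' ∈ A j, ∀ p, On p ℓ → On p ℓ' → ∀ v w,
      ∑ ℓ ∈ (A v).filter (fun ℓ => On p ℓ), m ℓ = ∑ ℓ ∈ (A w).filter (fun ℓ => On p ℓ), m ℓ :=
    fun i j hij ℓ hℓ ℓ' hℓ' p h1 h2 v w => h.balance p (h.cross i j hij ℓ hℓ ℓ' hℓ' p h1 h2) v w
  have hspan : ¬ ∃ p, ∀ i, ∀ ℓ ∈ A i, On p ℓ := by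
    rintro ⟨p, hp⟩
    exact hloc (isLocal_of_pencil (by norm_num) h hp)
  obtain ⟨⟨μ, hμ, hμ'⟩, g, σ, h1, h2⟩ := hesse_of_lines A m d h.disjoint h.pos h.degree hbal hspan
  refine ⟨⟨μ, hμ, ?_, hμ'⟩, ?_⟩
  · -- every class has three lines
    choose L hL t ht hg using h2 0
    have hinj : Function.Injective L := by
      intro a b hab
      have h3 : t a • hv (σ 0) a = t b • hv (σ 0) b := by rw [← hg a, ← hg b, hab]
      exact hv_inj (ht a) (ht b) h3
    have hcard : (A 0) = univ.image L := by
      ext ℓ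
      simp only [mem_image, mem_univ, true_and]
      constructor
      · intro hℓ
        obtain ⟨a, s, hs, hgs⟩ := h1 0 ℓ hℓ
        refine ⟨a, ?_⟩
        by_contra hne
        have hi := indep_rep hne
        rw [LinearIndependent.pair_iff] at hi
        have h4 : s • (L a).rep + (-t a) • ℓ.rep = 0 := by
          apply g.injective
          have h6 : s * t a + -t a * s = 0 := by ring
          rw [map_add, map_smul, map_smul, hg a, hgs, smul_smul, smul_smul, ← add_smul, h6,
            zero_smul, LinearEquiv.map_zero]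
        exact hs (hi _ _ h4).1
      · rintro ⟨a, rfl⟩
        exact hL a
    have h5 := h.degree 0
    rw [sum_congr rfl (fun ℓ hℓ => hμ' 0 ℓ hℓ), sum_const, hcard, card_image_of_injective _ hinj,
      card_univ, Fintype.card_fin, smul_eq_mul] at h5
    exact h5.symm
  obtain ⟨T, hT⟩ := exists_dual g
  refine ⟨T, σ, ?_, ?_⟩
  · intro i ℓ
    constructor
    · intro hℓ
      obtain ⟨a, t, ht, hg⟩ := h1 i ℓ hℓ
      refine ⟨a, fun x => ?_⟩
      rw [← hT x ℓ.rep, hg, hv_eq, dotProduct_smul, smul_eq_mul, mul_eq_zero]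
      exact ⟨fun hc => hc.resolve_left ht, Or.inr⟩
    · rintro ⟨a, ha⟩
      obtain ⟨ℓ', hℓ', t, ht, hg⟩ := h2 i a
      have heq : ℓ = ℓ' := by
        apply eq_of_same
        intro x hx
        rw [← hT x ℓ'.rep, hg, hv_eq, dotProduct_smul, (ha x).mp hx, smul_zero]
      exact heq ▸ hℓ'
  · have hon : ∀ i (p : P2), (∃ ℓ ∈ A i, On p ℓ) ↔
        ∃ a, T p.rep ⬝ᵥ hesseLine (σ i) a = 0 := by
      intro i p
      constructor
      · rintro ⟨ℓ, hℓ, hp⟩
        obtain ⟨a, t, ht, hg⟩ := h1 i ℓ hℓ
        refine ⟨a, ?_⟩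
        have hp' : p.rep ⬝ᵥ ℓ.rep = 0 := hp
        rw [← hT, hg, hv_eq, dotProduct_smul, smul_eq_mul, mul_eq_zero] at hp'
        exact hp'.resolve_left ht
      · rintro ⟨a, ha⟩
        obtain ⟨ℓ, hℓ, t, ht, hg⟩ := h2 i a
        refine ⟨ℓ, hℓ, ?_⟩
        show p.rep ⬝ᵥ ℓ.rep = 0
        rw [← hT, hg, hv_eq, dotProduct_smul, ha, smul_zero]
    have hk : ((σ (σ.symm 3) : Fin 4) : ℕ) = 3 := by simp
    have hl : ((σ (σ.symm 0) : Fin 4) : ℕ) = 0 := by simp
    have hne : σ.symm 3 ≠ σ.symm 0 := by
      intro hc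
      have := σ.symm.injective hc
      simp at this
    intro p
    rw [flex_iff (T p.rep) hk hl, ← hon, ← hon]
    constructor
    · intro hp
      obtain ⟨i, j, ℓ, hℓ, ℓ', hℓ', hne', h3, h4⟩ := h.baseSub p hp
      have key : ∀ v, ∃ ℓ ∈ A v, On p ℓ := by
        intro v
        by_contra hcon
        push Not at hcon
        have h5 := h.balance p hp v i
        have h6 : (A v).filter (fun ℓ => On p ℓ) = ∅ := by
          apply filter_eq_empty_iff.mpr
          intro ℓ hℓ
          exact hcon ℓ hℓ
        rw [h6, sum_empty] at h5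
        have h7 : 0 < ∑ ℓ ∈ (A i).filter (fun ℓ => On p ℓ), m ℓ :=
          lt_of_lt_of_le (h.pos i ℓ hℓ) (single_le_sum (f := m) (fun _ _ => Nat.zero_le _)
            (mem_filter.mpr ⟨hℓ, h3⟩))
        omega
      exact ⟨key _, key _⟩
    · rintro ⟨⟨ℓ, hℓ, h3⟩, ⟨ℓ', hℓ', h4⟩⟩
      exact h.cross _ _ hne ℓ hℓ ℓ' hℓ' p h3 h4

end Pool.Agent.H138.Net.Main
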